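import Pool.Agent.H14.Sel.Final
import Pool.Agent.H8.Sel.T31.All

/-!
# The exact minimax number of comparisons for the fourth largest element, infinitely many `n`

`V 4 n = n - 4 + 3 k` for all `k ≥ 4` and all `n` with `31 / 32 * 2 ^ k ≤ n ≤ 2 ^ k + 2`.
-/

namespace Pool.Agent.Results.MP_0151dc_lc.FourthExact

open Pool.Agent.Sel

theorem result (k n : ℕ) (hk : 4 ≤ k) (h1 : 31 * 2 ^ k ≤ 32 * n) (h2 : n ≤ 2 ^ k + 2) :
    V 4 n = n - 4 + 3 * k := by
  have h3 : 2 ^ 4 ≤ 2 ^ k := Nat.pow_le_pow_right (by norm_num) hk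
  exact fourth_of_table T31.chk (by norm_num) T31.root hk (by omega) h1 h2

end Pool.Agent.Results.MP_0151dc_lc.FourthExact
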